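import Mathlib

set_option autoImplicit false
set_option linter.unusedSectionVars false

/-!
# MP_c73f8e_nt : perfect restricted `s`-bases of size `2s+1` in abelian `2`-groups

We prove the negated form of Q1: for every `s ≥ 1`, every finite abelian group of order `2^(2s)`
that has a perfect restricted `s`-basis of size `2s+1` is isomorphic to `Z_2^(2s)` or to
`Z_2^(2s-2) × Z_4`.
-/

namespace Pool.Agent.Results.MP_c73f8e_nt.NoOtherGroups

open Finset

/-- `A` is a perfect restricted `s`-basis of the group `G`: every element of `G` is the sum of the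
elements of exactly one subset `B` of `A` with at most `s` elements. -/
def IsPerfectRestrictedBasis {G : Type*} [AddCommGroup G] (s : ℕ) (A : Finset G) : Prop :=
  ∀ g : G, ∃! B : Finset G, B ⊆ A ∧ B.card ≤ s ∧ ∑ b ∈ B, b = g

section Core

variable {G : Type*} [AddCommGroup G] [DecidableEq G] {s : ℕ} {A : Finset G}

/-- Injectivity. -/
lemma inj (hA : IsPerfectRestrictedBasis s A) {P Q : Finset G} (hP : P ⊆ A) (hQ : Q ⊆ A)
    (hPs : P.card ≤ s) (hQs : Q.card ≤ s) (h : ∑ b ∈ P, b = ∑ b ∈ Q, b) : P = Q := by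
  obtain ⟨B, hB, hu⟩ := hA (∑ b ∈ Q, b)
  rw [hu P ⟨hP, hPs, h⟩, hu Q ⟨hQ, hQs, rfl⟩]

/-- The small representation. -/
noncomputable def rep (hA : IsPerfectRestrictedBasis s A) (g : G) : Finset G :=
  (hA g).choose

lemma rep_sub (hA : IsPerfectRestrictedBasis s A) (g : G) : rep hA g ⊆ A :=
  (hA g).choose_spec.1.1

lemma rep_card (hA : IsPerfectRestrictedBasis s A) (g : G) : (rep hA g).card ≤ s :=
  (hA g).choose_spec.1.2.1

lemma rep_sum (hA : IsPerfectRestrictedBasis s A) (g : G) : ∑ b ∈ rep hA g, b = g :=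
  (hA g).choose_spec.1.2.2

lemma add_erase {C : Finset G} {x : G} (hx : x ∈ C) : x + ∑ b ∈ C.erase x, b = ∑ b ∈ C, b :=
  Finset.add_sum_erase C (fun b => b) hx

lemma rep_disj (hA : IsPerfectRestrictedBasis s A) {C : Finset G} (hC : C ⊆ A)
    (hCs : C.card = s + 1) {x : G} (hx : x ∈ C) : x ∉ rep hA (∑ b ∈ C, b) := by
  intro hxD
  have h1 := rep_sum hA (∑ b ∈ C, b)
  have e1 : ∑ b ∈ (rep hA (∑ b ∈ C, b)).erase x, b = ∑ b ∈ C.erase x, b := by
    exact add_left_cancel ((add_erase hxD).trans ((rep_sum hA _).trans (add_erase hx).symm))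
  have c1 : ((rep hA (∑ b ∈ C, b)).erase x).card ≤ s :=
    (Finset.card_erase_le).trans (rep_card hA _)
  have c2 : (C.erase x).card ≤ s := by
    rw [Finset.card_erase_of_mem hx]; omega
  have e2 := inj hA ((Finset.erase_subset _ _).trans (rep_sub hA _))
    ((Finset.erase_subset _ _).trans hC) c1 c2 e1
  have e3 : rep hA (∑ b ∈ C, b) = C := by
    rw [← Finset.insert_erase hxD, e2, Finset.insert_erase hx]
  have := rep_card hA (∑ b ∈ C, b)
  rw [e3] at this
  omega

lemma sum_swap {C : Finset G} {x y : G} (hx : x ∈ C) (hy : y ∉ C) :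
    ∑ b ∈ insert y (C.erase x), b = ∑ b ∈ C, b - x + y := by
  have hy' : y ∉ C.erase x := fun h => hy (Finset.mem_of_mem_erase h)
  rw [Finset.sum_insert hy']
  have a2 := add_erase hx
  rw [← a2]
  abel

lemma card_swap {C : Finset G} {x y : G} (hx : x ∈ C) (hy : y ∉ C) :
    (insert y (C.erase x)).card = C.card := by
  have hy' : y ∉ C.erase x := fun h => hy (Finset.mem_of_mem_erase h)
  rw [Finset.card_insert_of_notMem hy', Finset.card_erase_of_mem hx]
  have : 0 < C.card := Finset.card_pos.2 ⟨x, hx⟩
  omega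

lemma card_le_of_sub (hcard : A.card = 2 * s + 1) {C D : Finset G}
    (hC : C ⊆ A) (hCs : C.card = s + 1) (hD : D ⊆ A)
    (hdis : ∀ x ∈ C, x ∉ D) {z : G} (hz : z ∈ A) (hzC : z ∉ C) (hzD : z ∉ D) :
    D.card + 1 ≤ s := by
  have h1 : insert z D ⊆ A \ C := by
    intro w hw
    rcases Finset.mem_insert.1 hw with rfl | hw
    · exact Finset.mem_sdiff.2 ⟨hz, hzC⟩
    · exact Finset.mem_sdiff.2 ⟨hD hw, fun h => hdis w h hw⟩
  have h2 := Finset.card_le_card h1
  rw [Finset.card_insert_of_notMem hzD, Finset.card_sdiff_of_subset hC] at h2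
  omega

/-- The exchange property. -/
lemma star (hA : IsPerfectRestrictedBasis s A) (hcard : A.card = 2 * s + 1) {C : Finset G}
    (hC : C ⊆ A) (hCs : C.card = s + 1) {x y : G} (hx : x ∈ C) (hyA : y ∈ A) (hy : y ∉ C) :
    y ∈ rep hA (∑ b ∈ C, b) ∨ x ∈ rep hA (∑ b ∈ insert y (C.erase x), b) := by
  by_contra hcon
  push Not at hcon
  obtain ⟨h1, h2⟩ := hcon
  set D := rep hA (∑ b ∈ C, b) with hD
  set C' := insert y (C.erase x) with hC'
  set D' := rep hA (∑ b ∈ C', b) with hD'
  have hxy : x ≠ y := fun h => hy (h ▸ hx)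
  have hC'A : C' ⊆ A := by
    intro w hw
    rcases Finset.mem_insert.1 hw with rfl | hw
    · exact hyA
    · exact hC (Finset.mem_of_mem_erase hw)
  have hC's : C'.card = s + 1 := by rw [hC', card_swap hx hy, hCs]
  have hxC' : x ∉ C' := by
    rw [hC']
    simp [hxy]
  have cD : D.card + 1 ≤ s :=
    card_le_of_sub hcard hC hCs (rep_sub hA _) (fun w hw => rep_disj hA hC hCs hw) hyA hy h1
  have cD' : D'.card + 1 ≤ s :=
    card_le_of_sub hcard hC'A hC's (rep_sub hA _) (fun w hw => rep_disj hA hC'A hC's hw)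
      (hC hx) hxC' h2
  have hyD' : y ∉ D' := rep_disj hA hC'A hC's (Finset.mem_insert_self _ _)
  have hxD : x ∉ D := rep_disj hA hC hCs hx
  have e : insert x D' = insert y D := by
    apply inj hA
    · exact Finset.insert_subset (hC hx) (rep_sub hA _)
    · exact Finset.insert_subset hyA (rep_sub hA _)
    · rw [Finset.card_insert_of_notMem h2]; exact cD'
    · rw [Finset.card_insert_of_notMem h1]; exact cD
    · rw [Finset.sum_insert h2, Finset.sum_insert h1, rep_sum hA, rep_sum hA, sum_swap hx hy]
      abel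
  have : x ∈ insert y D := e ▸ Finset.mem_insert_self x D'
  rcases Finset.mem_insert.1 this with h | h
  · exact hxy h
  · exact hxD h

lemma not_mem_dbl (hA : IsPerfectRestrictedBasis s A) (hs : 1 ≤ s) {y : G} (hy : y ∈ A) :
    y ∉ rep hA (y + y) := by
  intro h
  have h1 := rep_sum hA (y + y)
  have a1 := add_erase h
  rw [h1] at a1
  have e : (rep hA (y + y)).erase y = {y} := by
    apply inj hA ((Finset.erase_subset _ _).trans (rep_sub hA _)) (by simpa using hy)
      ((Finset.card_erase_le).trans (rep_card hA _)) (by simpa using hs)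
    rw [Finset.sum_singleton]
    exact add_left_cancel a1
  have : y ∈ (rep hA (y + y)).erase y := by rw [e]; exact Finset.mem_singleton_self y
  exact absurd this (Finset.notMem_erase y _)

/-- Key step: if `C` has `s+1` elements and contains `y` and the small representation of `2y`,
then the small representation of the sum of `C` is everything outside `C`. -/
lemma full (hA : IsPerfectRestrictedBasis s A) (hcard : A.card = 2 * s + 1) (hs : 1 ≤ s)
    {y : G} (hy : y ∈ A) {C : Finset G} (hC : C ⊆ A) (hCs : C.card = s + 1)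
    (hK : insert y (rep hA (y + y)) ⊆ C) {z : G} (hz : z ∈ A) (hzC : z ∉ C) :
    z ∈ rep hA (∑ b ∈ C, b) := by
  by_contra hzD
  have hyS := not_mem_dbl hA hs hy
  have hyC : y ∈ C := hK (Finset.mem_insert_self _ _)
  have hSC : rep hA (y + y) ⊆ C := (Finset.subset_insert _ _).trans hK
  have hSsum := rep_sum hA (y + y)
  have hyz : y ≠ z := fun h => hzC (h ▸ hyC)
  rcases Nat.lt_or_ge (rep hA (y + y)).card 2 with hlt | hge
  · rcases Nat.lt_or_ge (rep hA (y + y)).card 1 with h0 | h1
    · -- |S| = 0
      have hS0 : rep hA (y + y) = ∅ := by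
        apply Finset.card_eq_zero.1; omega
      rw [hS0, Finset.sum_empty] at hSsum
      set D := rep hA (∑ b ∈ C, b) with hD
      have hyD : y ∉ D := rep_disj hA hC hCs hyC
      have cD : D.card + 1 ≤ s :=
        card_le_of_sub hcard hC hCs (rep_sub hA _) (fun w hw => rep_disj hA hC hCs hw) hz hzC hzD
      have e : C.erase y = insert y D := by
        apply inj hA ((Finset.erase_subset _ _).trans hC)
          (Finset.insert_subset hy (rep_sub hA _))
        · rw [Finset.card_erase_of_mem hyC]; omega
        · rw [Finset.card_insert_of_notMem hyD]; exact cD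
        · rw [Finset.sum_insert hyD, rep_sum hA]
          have a2 := add_erase hyC
          rw [← a2, ← add_assoc, ← hSsum, zero_add]
      have : y ∈ C.erase y := e ▸ Finset.mem_insert_self y D
      exact absurd this (Finset.notMem_erase y _)
    · -- |S| = 1
      obtain ⟨x, hx⟩ := Finset.card_eq_one.1 (le_antisymm (by omega) h1)
      rw [hx, Finset.sum_singleton] at hSsum
      have hxC : x ∈ C := hSC (by rw [hx]; exact Finset.mem_singleton_self x)
      have hxy : x ≠ y := by
        intro h
        apply hyS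
        rw [hx, h]
        exact Finset.mem_singleton_self y
      have hxz : x ≠ z := fun h => hzC (h ▸ hxC)
      set C1 := insert z (C.erase x) with hC1
      have hC1A : C1 ⊆ A := by
        intro w hw
        rcases Finset.mem_insert.1 hw with rfl | hw
        · exact hz
        · exact hC (Finset.mem_of_mem_erase hw)
      have hC1s : C1.card = s + 1 := by rw [hC1, card_swap hxC hzC, hCs]
      have hxC1 : x ∉ C1 := by
        rw [hC1]; simp [hxz]
      have hzC1 : z ∈ C1 := Finset.mem_insert_self _ _
      have hyC1 : y ∈ C1 := Finset.mem_insert_of_mem (Finset.mem_erase.2 ⟨hxy.symm, hyC⟩)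
      have hback : insert x (C1.erase z) = C := by
        rw [hC1, Finset.erase_insert (fun h => hzC (Finset.mem_of_mem_erase h)),
          Finset.insert_erase hxC]
      rcases star hA hcard hC1A hC1s hzC1 (hC hxC) hxC1 with h | h
      · set D1 := rep hA (∑ b ∈ C1, b) with hD1
        have hyD1 : y ∉ D1 := rep_disj hA hC1A hC1s hyC1
        have e : C1.erase y = insert y (D1.erase x) := by
          apply inj hA ((Finset.erase_subset _ _).trans hC1A)
            (Finset.insert_subset hy ((Finset.erase_subset _ _).trans (rep_sub hA _)))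
          · rw [Finset.card_erase_of_mem hyC1]; omega
          · have hc := rep_card hA (∑ b ∈ C1, b)
            rw [← hD1] at hc
            have hpos : 0 < D1.card := Finset.card_pos.2 ⟨x, h⟩
            rw [Finset.card_insert_of_notMem (fun h => hyD1 (Finset.mem_of_mem_erase h)),
              Finset.card_erase_of_mem h]
            omega
          · rw [Finset.sum_insert (fun h => hyD1 (Finset.mem_of_mem_erase h))]
            have a1 := add_erase hyC1
            have a2 := add_erase h
            rw [hD1, rep_sum hA, ← hD1] at a2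
            rw [← a1] at a2
            have a3 : x + ∑ b ∈ D1.erase x, b = y + ∑ b ∈ C1.erase y, b := a2
            have a4 : y + ∑ b ∈ C1.erase y, b = y + (y + ∑ b ∈ D1.erase x, b) := by
              rw [← add_assoc, ← hSsum, a3]
            exact add_left_cancel a4
        have : y ∈ C1.erase y := e ▸ Finset.mem_insert_self y _
        exact absurd this (Finset.notMem_erase y _)
      · rw [hback] at h
        exact hzD h
  · -- |S| ≥ 2
    set S := rep hA (y + y) with hS
    set C1 := insert z (C.erase y) with hC1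
    have hC1A : C1 ⊆ A := by
      intro w hw
      rcases Finset.mem_insert.1 hw with rfl | hw
      · exact hz
      · exact hC (Finset.mem_of_mem_erase hw)
    have hC1s : C1.card = s + 1 := by rw [hC1, card_swap hyC hzC, hCs]
    have hyC1 : y ∉ C1 := by
      rw [hC1]; simp [hyz]
    have hzC1 : z ∈ C1 := Finset.mem_insert_self _ _
    have hback : insert y (C1.erase z) = C := by
      rw [hC1, Finset.erase_insert (fun h => hzC (Finset.mem_of_mem_erase h)),
        Finset.insert_erase hyC]
    have hSC1 : S ⊆ C1 := by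
      intro w hw
      refine Finset.mem_insert_of_mem (Finset.mem_erase.2 ⟨?_, hSC hw⟩)
      rintro rfl
      exact hyS hw
    rcases star hA hcard hC1A hC1s hzC1 hy hyC1 with h | h
    · set D1 := rep hA (∑ b ∈ C1, b) with hD1
      have hy1 : y ∉ C1 \ S := fun h => hyC1 (Finset.mem_sdiff.1 h).1
      have e : insert y (C1 \ S) = D1.erase y := by
        apply inj hA (Finset.insert_subset hy (Finset.sdiff_subset.trans hC1A))
          ((Finset.erase_subset _ _).trans (rep_sub hA _))
        · rw [Finset.card_insert_of_notMem hy1, Finset.card_sdiff_of_subset hSC1]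
          omega
        · exact (Finset.card_erase_le).trans (rep_card hA _)
        · rw [Finset.sum_insert hy1]
          have a1 := Finset.sum_sdiff (f := fun b : G => b) hSC1
          have a2 := add_erase h
          rw [hD1, rep_sum hA, ← hD1] at a2
          rw [← a1, hSsum] at a2
          have a3 : y + ∑ b ∈ D1.erase y, b = ∑ b ∈ C1 \ S, b + (y + y) := a2
          have a4 : y + ∑ b ∈ D1.erase y, b = y + (y + ∑ b ∈ C1 \ S, b) := by
            rw [a3]; abel
          exact (add_left_cancel a4).symm
      have : y ∈ D1.erase y := e ▸ Finset.mem_insert_self y _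
      exact absurd this (Finset.notMem_erase y _)
    · rw [hback] at h
      exact hzD h

/-- Twice the sum of `C` is the sum of `A`. -/
lemma two_sum (hA : IsPerfectRestrictedBasis s A) (hcard : A.card = 2 * s + 1) (hs : 1 ≤ s)
    {y : G} (hy : y ∈ A) {C : Finset G} (hC : C ⊆ A) (hCs : C.card = s + 1)
    (hK : insert y (rep hA (y + y)) ⊆ C) :
    ∑ b ∈ C, b + ∑ b ∈ C, b = ∑ b ∈ A, b := by
  have e : rep hA (∑ b ∈ C, b) = A \ C := by
    apply Finset.Subset.antisymm
    · intro w hw
      exact Finset.mem_sdiff.2 ⟨rep_sub hA _ hw, fun h => rep_disj hA hC hCs h hw⟩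
    · intro w hw
      obtain ⟨h1, h2⟩ := Finset.mem_sdiff.1 hw
      exact full hA hcard hs hy hC hCs hK h1 h2
  have h1 := rep_sum hA (∑ b ∈ C, b)
  rw [e] at h1
  have a1 := Finset.sum_sdiff (f := fun b : G => b) hC
  rw [← a1, h1]

lemma exch (hA : IsPerfectRestrictedBasis s A) (hcard : A.card = 2 * s + 1) (hs : 1 ≤ s)
    {y : G} (hy : y ∈ A) (hK : (insert y (rep hA (y + y))).card ≤ s) {u v : G}
    (hu : u ∈ A) (hv : v ∈ A) (huK : u ∉ insert y (rep hA (y + y)))
    (hvK : v ∉ insert y (rep hA (y + y))) : u + u = v + v := by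
  by_cases huv : u = v
  · rw [huv]
  have hKA : insert y (rep hA (y + y)) ⊆ A := Finset.insert_subset hy (rep_sub hA _)
  have h1 : insert u (insert y (rep hA (y + y))) ⊆ A.erase v := by
    intro w hw
    rcases Finset.mem_insert.1 hw with rfl | hw
    · exact Finset.mem_erase.2 ⟨huv, hu⟩
    · refine Finset.mem_erase.2 ⟨?_, hKA hw⟩
      rintro rfl
      exact hvK hw
  have h2 : (insert u (insert y (rep hA (y + y)))).card ≤ s + 1 :=
    (Finset.card_insert_le _ _).trans (by omega)
  have h3 : s + 1 ≤ (A.erase v).card := by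
    rw [Finset.card_erase_of_mem hv]; omega
  obtain ⟨C, hC1, hC2, hC3⟩ := Finset.exists_subsuperset_card_eq h1 h2 h3
  have hCA : C ⊆ A := hC2.trans (Finset.erase_subset _ _)
  have hvC : v ∉ C := fun h => absurd (hC2 h) (Finset.notMem_erase v _)
  have huC : u ∈ C := hC1 (Finset.mem_insert_self _ _)
  have hKC : insert y (rep hA (y + y)) ⊆ C := (Finset.subset_insert _ _).trans hC1
  have t1 := two_sum hA hcard hs hy hCA hC3 hKC
  have hC'A : insert v (C.erase u) ⊆ A :=
    Finset.insert_subset hv ((Finset.erase_subset _ _).trans hCA)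
  have hC's : (insert v (C.erase u)).card = s + 1 := by rw [card_swap huC hvC, hC3]
  have hKC' : insert y (rep hA (y + y)) ⊆ insert v (C.erase u) := by
    intro w hw
    refine Finset.mem_insert_of_mem (Finset.mem_erase.2 ⟨?_, hKC hw⟩)
    rintro rfl
    exact huK hw
  have t2 := two_sum hA hcard hs hy hC'A hC's hKC'
  rw [sum_swap huC hvC, ← t1] at t2
  have t3 : (v + v) - (u + u) = 0 := by
    have : ∑ b ∈ C, b - u + v + (∑ b ∈ C, b - u + v) - (∑ b ∈ C, b + ∑ b ∈ C, b)
        = (v + v) - (u + u) := by abel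
    rw [← this, t2, sub_self]
  exact (sub_eq_zero.1 t3).symm

lemma sum_double {W : Finset G} {h : G} (hW : ∀ v ∈ W, v + v = h) :
    ∑ b ∈ W, b + ∑ b ∈ W, b = W.card • h := by
  rw [← Finset.sum_add_distrib, Finset.sum_congr rfl hW, Finset.sum_const]

/-- In the presence of a perfect restricted `s`-basis of size `2s+1` (`s ≥ 2`), a group killed by
`2^(2s)` is either killed by `2`, or doubling has image `{0, h}` with `h` of order `2`. -/
lemma structure_core (hA : IsPerfectRestrictedBasis s A) (hcard : A.card = 2 * s + 1)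
    (hs : 2 ≤ s) (hG : ∀ g : G, (2 ^ (2 * s)) • g = 0) :
    (∀ g : G, g + g = 0) ∨
      ∃ h : G, h ≠ 0 ∧ h + h = 0 ∧ (∃ a : G, a + a = h) ∧ ∀ g : G, g + g = 0 ∨ g + g = h := by
  have hs1 : 1 ≤ s := by omega
  have hKcard : ∀ y ∈ A, (insert y (rep hA (y + y))).card = (rep hA (y + y)).card + 1 :=
    fun y hy => Finset.card_insert_of_notMem (not_mem_dbl hA hs1 hy)
  have hKA : ∀ y ∈ A, insert y (rep hA (y + y)) ⊆ A :=
    fun y hy => Finset.insert_subset hy (rep_sub hA _)
  -- Step 1
  have step1 : ∃ y ∈ A, (insert y (rep hA (y + y))).card ≤ s := by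
    by_contra hcon
    push Not at hcon
    have hfull : ∀ y ∈ A, (insert y (rep hA (y + y))).card = s + 1 := by
      intro y hy
      have h1 := hcon y hy
      have h2 := hKcard y hy
      have h3 := rep_card hA (y + y)
      omega
    have h6 : ∀ y ∈ A, (6 : ℕ) • y = ∑ b ∈ A, b := by
      intro y hy
      rw [← two_sum hA hcard hs1 hy (hKA y hy) (hfull y hy) (Finset.Subset.refl _),
        Finset.sum_insert (not_mem_dbl hA hs1 hy), rep_sum hA]
      abel
    have h2 : ∀ y ∈ A, ∀ z ∈ A, y + y = z + z := by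
      intro y hy z hz
      have e1 : (6 : ℕ) • (y - z) = 0 := by
        rw [nsmul_sub, h6 y hy, h6 z hz, sub_self]
      have e2 := hG (y - z)
      have d1 : addOrderOf (y - z) ∣ 6 := addOrderOf_dvd_of_nsmul_eq_zero e1
      have d2 : addOrderOf (y - z) ∣ 2 ^ (2 * s) := addOrderOf_dvd_of_nsmul_eq_zero e2
      have d3 : addOrderOf (y - z) ∣ 2 := by
        have hc : Nat.Coprime (addOrderOf (y - z)) 3 :=
          Nat.Coprime.coprime_dvd_left d2 (Nat.Coprime.pow_left _ (by norm_num))
        exact hc.dvd_of_dvd_mul_right (by simpa using d1)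
      have e3 : (2 : ℕ) • (y - z) = 0 := addOrderOf_dvd_iff_nsmul_eq_zero.1 d3
      rw [nsmul_sub, two_nsmul, two_nsmul, sub_eq_zero] at e3
      exact e3
    obtain ⟨y0, hy0⟩ : A.Nonempty := Finset.card_pos.1 (by omega)
    have hempty : rep hA (y0 + y0) = ∅ := by
      rw [Finset.eq_empty_iff_forall_notMem]
      intro z hz
      have hzA := rep_sub hA _ hz
      rw [h2 y0 hy0 z hzA] at hz
      exact not_mem_dbl hA hs1 hzA hz
    have h1 := hKcard y0 hy0
    have h3 := hfull y0 hy0
    have h4 : (rep hA (y0 + y0)).card = 0 := by rw [hempty, Finset.card_empty]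
    omega
  obtain ⟨y, hy, hyK⟩ := step1
  set K := insert y (rep hA (y + y)) with hKdef
  have hKsub : K ⊆ A := hKA y hy
  -- two elements outside K
  have hcO : (A \ K).card ≥ s + 1 := by
    rw [Finset.card_sdiff_of_subset hKsub]; omega
  obtain ⟨u, hu, u', hu', huu'⟩ := Finset.one_lt_card.1 (show 1 < (A \ K).card by omega)
  obtain ⟨huA, huK⟩ := Finset.mem_sdiff.1 hu
  obtain ⟨hu'A, hu'K⟩ := Finset.mem_sdiff.1 hu'
  set h := u + u with hh
  have hOdbl : ∀ v ∈ A, v ∉ K → v + v = h := fun v hv hvK =>
    exch hA hcard hs1 hy hyK hv huA hvK huK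
  set H := rep hA h with hHdef
  have hHA : H ⊆ A := rep_sub hA _
  have hHs : H.card ≤ s := rep_card hA _
  have hHsum : ∑ b ∈ H, b = h := rep_sum hA _
  have hHK : H ⊆ K := by
    intro v hv
    by_contra hvK
    have h1 := hOdbl v (hHA hv) hvK
    have h2 := not_mem_dbl hA hs1 (hHA hv)
    rw [h1] at h2
    exact h2 hv
  have huH : u ∉ H := fun hm => huK (hHK hm)
  have hu'H : u' ∉ H := fun hm => hu'K (hHK hm)
  -- Step 3a
  have hWdbl : ∀ v ∈ A \ H, v + v = h := by
    intro v hv
    obtain ⟨hvA, hvH⟩ := Finset.mem_sdiff.1 hv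
    by_cases hvK : v ∈ K
    · rcases Nat.lt_or_ge H.card s with hlt | hge
      · have hvu : v ≠ u := fun e => huK (e ▸ hvK)
        have c1 : (insert u (rep hA (u + u))).card ≤ s := by
          rw [hKcard u huA, ← hh, ← hHdef]; omega
        have m1 : v ∉ insert u (rep hA (u + u)) := by
          rw [← hh, ← hHdef, Finset.mem_insert]
          push Not
          exact ⟨hvu, hvH⟩
        have m2 : u' ∉ insert u (rep hA (u + u)) := by
          rw [← hh, ← hHdef, Finset.mem_insert]
          push Not
          exact ⟨huu'.symm, hu'H⟩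
        rw [exch hA hcard hs1 huA c1 hvA hu'A m1 m2]
        exact hOdbl u' hu'A hu'K
      · have : H = K := Finset.eq_of_subset_of_card_le hHK (by omega)
        exact absurd (this ▸ hvK) hvH
    · exact hOdbl v hvA hvK
  have hWcard : (A \ H).card = 2 * s + 1 - H.card := by
    rw [Finset.card_sdiff_of_subset hHA]; omega
  have hAsum : ∑ b ∈ A, b = h + ∑ b ∈ A \ H, b := by
    have a1 := Finset.sum_sdiff (f := fun b : G => b) hHA
    rw [← a1, hHsum, add_comm]
  -- Step 3b
  have hWsum : ∑ b ∈ A \ H, b = (s + 2 - H.card) • h := by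
    have c1 : (insert u H).card ≤ s + 1 := (Finset.card_insert_le _ _).trans (by omega)
    obtain ⟨C, hC1, hC2, hC3⟩ := Finset.exists_subsuperset_card_eq
      (Finset.insert_subset huA hHA) c1 (by omega)
    have t1 := two_sum hA hcard hs1 huA hC2 hC3 (by rw [← hh, ← hHdef]; exact hC1)
    have hHC : H ⊆ C := (Finset.subset_insert _ _).trans hC1
    have a1 := Finset.sum_sdiff (f := fun b : G => b) hHC
    have hd : ∀ v ∈ C \ H, v + v = h := fun v hv =>
      hWdbl v (Finset.mem_sdiff.2 ⟨hC2 (Finset.mem_sdiff.1 hv).1, (Finset.mem_sdiff.1 hv).2⟩)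
    have a2 := sum_double hd
    rw [Finset.card_sdiff_of_subset hHC, hC3] at a2
    rw [hAsum, ← a1, hHsum] at t1
    have t2 : (∑ b ∈ C \ H, b + ∑ b ∈ C \ H, b) + h + h = h + ∑ b ∈ A \ H, b := by
      rw [← t1]; abel
    rw [a2] at t2
    have t3 : ∑ b ∈ A \ H, b = (s + 1 - H.card) • h + h := by
      have : (s + 1 - H.card) • h + h + h = h + ((s + 1 - H.card) • h + h) := by abel
      rw [this] at t2
      exact (add_left_cancel t2).symm
    rw [t3, ← succ_nsmul]
    congr 1
    omega
  -- Step 5: |H| ≤ 1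
  have hH1 : H.card ≤ 1 := by
    by_contra hcon
    push Not at hcon
    obtain ⟨J, hJ1, hJ2⟩ := Finset.exists_subset_card_eq
      (show s + 2 - H.card ≤ (A \ H).card by omega)
    have hJd : ∀ v ∈ J, v + v = h := fun v hv => hWdbl v (hJ1 hv)
    have a1 := sum_double hJd
    rw [hJ2, ← hWsum] at a1
    have a2 := Finset.sum_sdiff (f := fun b : G => b) hJ1
    rw [← a2] at a1
    have a3 : ∑ b ∈ J, b = ∑ b ∈ (A \ H) \ J, b := add_right_cancel a1
    have e : J = (A \ H) \ J := by
      apply inj hA (hJ1.trans Finset.sdiff_subset)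
        (Finset.sdiff_subset.trans Finset.sdiff_subset) (by omega) _ a3
      rw [Finset.card_sdiff_of_subset hJ1]; omega
    have hJne : J.Nonempty := Finset.card_pos.1 (by omega)
    obtain ⟨w, hw⟩ := hJne
    have hw' := hw
    rw [e] at hw'
    exact (Finset.mem_sdiff.1 hw').2 hw
  -- every element is a sum of elements of A
  have hgen : ∀ g : G, ∃ B ⊆ A, g + g = ∑ b ∈ B, (b + b) := by
    intro g
    refine ⟨rep hA g, rep_sub hA g, ?_⟩
    rw [Finset.sum_add_distrib, rep_sum hA]
  rcases Nat.lt_or_ge H.card 1 with h0 | h1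
  · left
    have hHe : H = ∅ := Finset.card_eq_zero.1 (by omega)
    rw [hHe, Finset.sum_empty] at hHsum
    intro g
    obtain ⟨B, hB, hg⟩ := hgen g
    rw [hg]
    apply Finset.sum_eq_zero
    intro b hb
    rw [hWdbl b (by rw [hHe, Finset.sdiff_empty]; exact hB hb), ← hHsum]
  · right
    obtain ⟨x, hx⟩ := Finset.card_eq_one.1 (le_antisymm hH1 h1)
    have hxh : x = h := by
      rw [← hHsum, hx, Finset.sum_singleton]
    have h20 : h + h = 0 := by
      have a1 := sum_double hWdbl
      rw [hWsum, hWcard, hx, Finset.card_singleton, ← add_nsmul,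
        show s + 2 - 1 + (s + 2 - 1) = 2 + (2 * s + 1 - 1) by omega, add_nsmul] at a1
      have a2 : (2 : ℕ) • h = 0 := by
        have := a1
        rwa [add_eq_right] at this
      rwa [two_nsmul] at a2
    refine ⟨h, ?_, h20, ⟨u, rfl⟩, ?_⟩
    · intro h0
      have e : H = ∅ := by
        apply inj hA hHA (Finset.empty_subset _) hHs (by simp)
        rw [hHsum, h0, Finset.sum_empty]
      rw [e, Finset.card_empty] at h1
      omega
    · intro g
      obtain ⟨B, hB, hg⟩ := hgen g
      rw [hg]
      clear hg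
      have key : ∀ B : Finset G, B ⊆ A →
          ∑ b ∈ B, (b + b) = 0 ∨ ∑ b ∈ B, (b + b) = h := by
        intro B
        induction B using Finset.induction_on with
        | empty => intro _; left; simp
        | insert b B hb ih =>
          intro hBA
          have ih' := ih ((Finset.subset_insert _ _).trans hBA)
          have hbA : b ∈ A := hBA (Finset.mem_insert_self _ _)
          rw [Finset.sum_insert hb]
          have hb2 : b + b = 0 ∨ b + b = h := by
            by_cases hbx : b ∈ H
            · left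
              rw [hx, Finset.mem_singleton] at hbx
              rw [hbx, hxh, h20]
            · right
              exact hWdbl b (Finset.mem_sdiff.2 ⟨hbA, hbx⟩)
          rcases hb2 with e1 | e1 <;> rcases ih' with e2 | e2 <;> rw [e1, e2]
          · left; simp
          · right; simp
          · right; simp
          · left; exact h20
      exact key B hB

end Core

lemma elementary {V : Type*} [AddCommGroup V] [Finite V] (n : ℕ) (hc : Nat.card V = 2 ^ n)
    (h2 : ∀ g : V, g + g = 0) : Nonempty (V ≃+ (Fin n → ZMod 2)) := by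
  have : Fact (Nat.Prime 2) := ⟨Nat.prime_two⟩
  let _ : Module (ZMod 2) V := AddCommGroup.zmodModule (by intro x; rw [two_nsmul]; exact h2 x)
  have : Module.Finite (ZMod 2) V := inferInstance
  have h1 : Module.finrank (ZMod 2) V = n := by
    have := Module.natCard_eq_pow_finrank (K := ZMod 2) (V := V)
    rw [hc, Nat.card_zmod] at this
    exact (Nat.pow_right_injective (le_refl 2) this).symm
  exact ⟨(Module.finBasisOfFinrankEq (ZMod 2) V h1).equivFun.toAddEquiv⟩

lemma order_four {G : Type*} [AddCommGroup G] [Finite G] (n : ℕ) (hc : Nat.card G = 2 ^ (n + 2))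
    {h a : G} (h0 : h ≠ 0) (h2 : h + h = 0) (ha : a + a = h)
    (hG : ∀ g : G, g + g = 0 ∨ g + g = h) : Nonempty (G ≃+ (Fin n → ZMod 2) × ZMod 4) := by
  have : Fact (Nat.Prime 2) := ⟨Nat.prime_two⟩
  let V : AddSubgroup G := (nsmulAddMonoidHom 2 : G →+ G).ker
  have hV : ∀ g : G, g ∈ V ↔ g + g = 0 := by
    intro g
    rw [AddMonoidHom.mem_ker, nsmulAddMonoidHom_apply, two_nsmul]
  let _ : Module (ZMod 2) V := AddCommGroup.zmodModule (by
    intro x
    rw [two_nsmul]
    apply Subtype.ext
    exact (hV x).1 x.2)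
  let h' : V := ⟨h, (hV h).2 h2⟩
  obtain ⟨U, hU⟩ := Submodule.exists_isCompl (Submodule.span (ZMod 2) {h'})
  -- multiples of a
  have h4a : (4 : ℤ) • a = 0 := by
    have : (4 : ℤ) • a = (a + a) + (a + a) := by abel
    rw [this, ha, h2]
  let f : ZMod 4 →+ G := ZMod.lift 4 ⟨zmultiplesHom G a, by simpa using h4a⟩
  have hf : ∀ k : ℤ, f (k : ZMod 4) = k • a := by
    intro k
    simp [f]
  let φ : U × ZMod 4 →+ G :=
    AddMonoidHom.coprod (V.subtype.comp (U.toAddSubgroup.subtype)) f
  have hφ : ∀ (u : U) (k : ℤ), φ (u, (k : ZMod 4)) = ((u : V) : G) + k • a := by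
    intro u k
    simp only [φ, AddMonoidHom.coprod_apply, hf]
    rfl
  have hspan : ∀ v : V, v ∈ Submodule.span (ZMod 2) {h'} ↔ (v = 0 ∨ v = h') := by
    intro v
    rw [Submodule.mem_span_singleton]
    constructor
    · rintro ⟨c, rfl⟩
      fin_cases c
      · left; exact zero_smul _ _
      · right; exact one_smul _ _
    · rintro (rfl | rfl)
      · exact ⟨0, zero_smul _ _⟩
      · exact ⟨1, one_smul _ _⟩
  have hinj : Function.Injective φ := by
    rw [injective_iff_map_eq_zero]
    rintro ⟨u, k⟩ huk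
    obtain ⟨k, rfl⟩ := ZMod.intCast_surjective k
    rw [hφ] at huk
    -- double
    have hu2 : ((u : V) : G) + ((u : V) : G) = 0 := (hV _).1 (u : V).2
    have hk1 : k • h = 0 := by
      have : k • h = (((u : V) : G) + k • a) + (((u : V) : G) + k • a) -
          (((u : V) : G) + ((u : V) : G)) := by
        rw [← ha]; module
      rw [this, huk, hu2]; abel
    have hev : Even k := by
      rcases Int.even_or_odd' k with ⟨m, hm | hm⟩
      · exact ⟨m, by omega⟩
      · exfalso
        apply h0
        have : k • h = m • (h + h) + h := by rw [hm]; module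
        rw [hk1, h2, smul_zero, zero_add] at this
        exact this.symm
    obtain ⟨m, hm⟩ := hev
    have hka : k • a = m • h := by rw [hm, ← ha]; module
    have hmem : (u : V) ∈ Submodule.span (ZMod 2) {h'} := by
      rw [hspan]
      rcases Int.even_or_odd' m with ⟨j, hj | hj⟩
      · left
        apply Subtype.ext
        have : m • h = j • (h + h) := by rw [hj]; module
        rw [hka, this, h2, smul_zero, add_zero] at huk
        exact huk
      · right
        apply Subtype.ext
        have : m • h = j • (h + h) + h := by rw [hj]; module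
        rw [hka, this, h2, smul_zero, zero_add] at huk
        have h3 : ((u : V) : G) = h := by
          have : ((u : V) : G) + h + h = 0 + h := by rw [huk]
          rw [add_assoc, h2, add_zero, zero_add] at this
          exact this
        exact h3
    have hu0 : (u : V) = 0 := by
      have := hU.disjoint.le_bot (Submodule.mem_inf.2 ⟨hmem, u.2⟩)
      simpa using this
    have hu0' : u = 0 := Subtype.ext hu0
    have hmh : m • h = 0 := by
      rw [hka, hu0] at huk
      simpa using huk
    have hev2 : Even m := by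
      rcases Int.even_or_odd' m with ⟨j, hj | hj⟩
      · exact ⟨j, by omega⟩
      · exfalso
        apply h0
        have : m • h = j • (h + h) + h := by rw [hj]; module
        rw [hmh, h2, smul_zero, zero_add] at this
        exact this.symm
    obtain ⟨j, hj⟩ := hev2
    have hk4 : ((k : ℤ) : ZMod 4) = 0 := by
      rw [ZMod.intCast_zmod_eq_zero_iff_dvd]
      exact ⟨j, by push_cast; omega⟩
    rw [hu0', hk4]
    rfl
  have hsurj : Function.Surjective φ := by
    have hVin : ∀ g : G, g + g = 0 → ∃ (u : U) (k : ℤ), φ (u, (k : ZMod 4)) = g := by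
      intro g hg
      have hgV : (⟨g, (hV g).2 hg⟩ : V) ∈ (Submodule.span (ZMod 2) {h'}) ⊔ U := by
        rw [hU.sup_eq_top]; trivial
      obtain ⟨w, hw, u, hu, hwu⟩ := Submodule.mem_sup.1 hgV
      rcases (hspan w).1 hw with rfl | rfl
      · refine ⟨⟨u, hu⟩, 0, ?_⟩
        rw [hφ]
        have := congrArg Subtype.val hwu
        simpa using this
      · refine ⟨⟨u, hu⟩, 2, ?_⟩
        rw [hφ]
        have h3 : h + (u : G) = g := congrArg Subtype.val hwu
        have h5 : (2 : ℤ) • a = h := by rw [← ha]; abel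
        rw [h5, ← h3]
        show (u : G) + h = h + (u : G)
        abel
    intro g
    rcases hG g with hg | hg
    · obtain ⟨u, k, h1⟩ := hVin g hg
      exact ⟨_, h1⟩
    · have : (g - a) + (g - a) = 0 := by
        have : (g - a) + (g - a) = (g + g) - (a + a) := by abel
        rw [this, hg, ha, sub_self]
      obtain ⟨u, k, h1⟩ := hVin (g - a) this
      refine ⟨(u, ((k + 1 : ℤ) : ZMod 4)), ?_⟩
      rw [hφ] at h1 ⊢
      rw [add_smul, one_smul, ← add_assoc, h1]
      abel
  let e : U × ZMod 4 ≃+ G := AddEquiv.ofBijective φ ⟨hinj, hsurj⟩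
  have hcU : Nat.card U = 2 ^ n := by
    have h1 := Nat.card_congr e.toEquiv
    rw [Nat.card_prod, Nat.card_zmod, hc, pow_add] at h1
    omega
  obtain ⟨e2⟩ := elementary (V := U) n hcU (by
    intro g
    apply Subtype.ext
    apply Subtype.ext
    exact (hV _).1 (g : V).2)
  exact ⟨e.symm.trans (AddEquiv.prodCongr e2 (AddEquiv.refl _))⟩

lemma small_case {G : Type*} [AddCommGroup G] [Finite G] (hc : Nat.card G = 4) :
    (∀ g : G, g + g = 0) ∨
      ∃ h : G, h ≠ 0 ∧ h + h = 0 ∧ (∃ a : G, a + a = h) ∧ ∀ g : G, g + g = 0 ∨ g + g = h := by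
  by_cases hall : ∀ g : G, g + g = 0
  · exact Or.inl hall
  right
  push Not at hall
  obtain ⟨a, ha⟩ := hall
  have h4 : ∀ g : G, (4 : ℕ) • g = 0 := fun g => by rw [← hc]; exact card_nsmul_eq_zero'
  have hh : (a + a) + (a + a) = 0 := by
    have : (a + a) + (a + a) = (4 : ℕ) • a := by abel
    rw [this, h4]
  refine ⟨a + a, ha, hh, ⟨a, rfl⟩, ?_⟩
  have hord : addOrderOf a = 4 := by
    have d : addOrderOf a ∣ 2 ^ 2 := addOrderOf_dvd_of_nsmul_eq_zero (h4 a)
    obtain ⟨k, hk, e⟩ := (Nat.dvd_prime_pow Nat.prime_two).1 d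
    have hk2 : k = 2 := by
      by_contra hne
      have : addOrderOf a ∣ 2 := by
        rw [e]
        exact (pow_dvd_pow 2 (show k ≤ 1 by omega)).trans (by norm_num)
      have h2 := addOrderOf_dvd_iff_nsmul_eq_zero.1 this
      rw [two_nsmul] at h2
      exact ha h2
    rw [e, hk2]; norm_num
  have htop : AddSubgroup.zmultiples a = ⊤ := by
    apply AddSubgroup.eq_top_of_card_eq
    rw [Nat.card_zmultiples, hord, hc]
  intro g
  have hg : g ∈ AddSubgroup.zmultiples a := by rw [htop]; trivial
  obtain ⟨k, rfl⟩ := AddSubgroup.mem_zmultiples_iff.1 hg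
  rcases Int.even_or_odd' k with ⟨m, hm | hm⟩
  · left
    have : k • a + k • a = m • ((a + a) + (a + a)) := by rw [hm]; module
    rw [this, hh, smul_zero]
  · right
    have : k • a + k • a = m • ((a + a) + (a + a)) + (a + a) := by rw [hm]; module
    rw [this, hh, smul_zero, zero_add]

universe u

/-- For every `s ≥ 1`, a finite abelian group of order `2^(2s)` with a perfect restricted
`s`-basis of size `2s+1` is isomorphic to `Z_2^(2s)` or to `Z_2^(2s-2) × Z_4`. -/
theorem result (s : ℕ) (hs : 1 ≤ s) (G : Type u) [AddCommGroup G] [Finite G]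
    (hG : Nat.card G = 2 ^ (2 * s)) (A : Finset G) (hA : A.card = 2 * s + 1)
    (hperf : IsPerfectRestrictedBasis s A) :
    Nonempty (G ≃+ (Fin (2 * s) → ZMod 2)) ∨
      Nonempty (G ≃+ (Fin (2 * s - 2) → ZMod 2) × ZMod 4) := by
  classical
  have hcore : (∀ g : G, g + g = 0) ∨
      ∃ h : G, h ≠ 0 ∧ h + h = 0 ∧ (∃ a : G, a + a = h) ∧ ∀ g : G, g + g = 0 ∨ g + g = h := by
    rcases Nat.lt_or_ge s 2 with h1 | h2
    · have : s = 1 := by omega
      subst this
      exact small_case (by rw [hG]; norm_num)
    · refine structure_core hperf hA h2 ?_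
      intro g
      rw [← hG]
      exact card_nsmul_eq_zero'
  rcases hcore with h | ⟨h, h0, h2, ⟨a, ha⟩, hall⟩
  · exact Or.inl (elementary (2 * s) hG h)
  · right
    exact order_four (2 * s - 2) (by rw [hG]; congr 1; omega) h0 h2 ha hall

end Pool.Agent.Results.MP_c73f8e_nt.NoOtherGroups
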